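import Pool.Agent.Helper53.OS.Lim

/-! MP_195d30_co, Q1: the exact value of the liminf is `⨆ p, kap p`, the maximal number of clusters per
vertex of Bernoulli site percolation on the triangular lattice, and this number lies between `0.096305`
and `0.09633`.  All definitions are in `Pool/Agent/Helper53/OS/Defs.lean`. -/

set_option autoImplicit false

namespace Pool.Agent.Results.MP_195d30_co.ExactValue

open Pool.Agent.Helper53.OS

/-- **Theorem.** Over all triangulated planar graphs `G` (on vertex sets `Fin n`), as the number of
vertices tends to infinity, the lower limit of (best score of a stopping algorithm)/(number of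
vertices) is the maximal cluster density of site percolation on the triangular lattice; its value is in
`[0.096305, 0.09633]`. -/
theorem result :
    Filter.liminf
      (fun G : {G : Σ n : ℕ, SimpleGraph (Fin n) // IsTri G.2} => maxScore G.1.2 / (G.1.1 : ℝ))
      (Filter.comap (fun G => G.1.1) Filter.atTop) = (⨆ p : Set.Icc (0 : ℝ) 1, kap p.1) ∧
    (96305 / 1000000 : ℝ) ≤ (⨆ p : Set.Icc (0 : ℝ) 1, kap p.1) ∧
    (⨆ p : Set.Icc (0 : ℝ) 1, kap p.1) ≤ 9633 / 100000 :=
  ⟨liminf_eq, XX_bounds.1, XX_bounds.2⟩

end Pool.Agent.Results.MP_195d30_co.ExactValue
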